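import Pool.Agent.Y786.EP.Weighted

/-!
Threshold graphs are determined by their conjugate degree sequences; there are `2 ^ (n - 1)` of
them (helper786).
-/

set_option autoImplicit false

namespace Pool.Agent.Y786.EP

open scoped BigOperators
open Pool.Agent.Helper93.EP

/-- the threshold graph with code `b` -/
def T {n : ℕ} (b : Fin n → Bool) : SimpleGraph (Fin n) :=
  SimpleGraph.fromRel (fun i j => i < j ∧ b j = true)

theorem T_adj {n : ℕ} (b : Fin n → Bool) (i j : Fin n) :
    (T b).Adj i j ↔ (i < j ∧ b j = true) ∨ (j < i ∧ b i = true) := by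
  rw [T, SimpleGraph.fromRel_adj]
  constructor
  · exact fun h => h.2
  · rintro (h | h)
    · exact ⟨h.1.ne, Or.inl h⟩
    · exact ⟨h.1.ne', Or.inr h⟩

/-- the neighbourhood of a vertex -/
noncomputable def nbh {n : ℕ} (G : SimpleGraph (Fin n)) (v : Fin n) : Finset (Fin n) := by
  classical
  exact Finset.univ.filter (fun w => G.Adj v w)

theorem mem_nbh {n : ℕ} (G : SimpleGraph (Fin n)) (v w : Fin n) : w ∈ nbh G v ↔ G.Adj v w := by
  simp [nbh]

/-- the number of vertices of degree at least `k + 1` -/
noncomputable def cd {n : ℕ} (G : SimpleGraph (Fin n)) (k : ℕ) : ℕ := by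
  classical
  exact (Finset.univ.filter (fun v => k + 1 ≤ (nbh G v).card)).card

theorem cd_iso {n : ℕ} (G H : SimpleGraph (Fin n)) (e : G ≃g H) (k : ℕ) : cd G k = cd H k := by
  classical
  unfold cd
  refine Finset.card_bij (fun v _ => e v) ?_ (fun a _ b _ h => e.injective h) ?_
  · intro v hv
    simp only [Finset.mem_filter, Finset.mem_univ, true_and] at hv ⊢
    have : (nbh G v).card ≤ (nbh H (e v)).card := by
      refine Finset.card_le_card_of_injOn (fun w => e w) ?_ (fun a _ b _ h => e.injective h)
      intro w hw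
      have hw' := (mem_nbh G v w).1 hw
      exact (mem_nbh H (e v) (e w)).2 (e.map_adj_iff.2 hw')
    omega
  · intro u hu
    simp only [Finset.mem_filter, Finset.mem_univ, true_and] at hu
    refine ⟨e.symm u, ?_, by simp⟩
    simp only [Finset.mem_filter, Finset.mem_univ, true_and]
    have : (nbh H u).card ≤ (nbh G (e.symm u)).card := by
      refine Finset.card_le_card_of_injOn (fun w => e.symm w) ?_
        (fun a _ b _ h => e.symm.injective h)
      intro w hw
      have hw' := (mem_nbh H u w).1 hw
      exact (mem_nbh G (e.symm u) (e.symm w)).2 (e.symm.map_adj_iff.2 hw')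
    omega

theorem T_lt {n : ℕ} (b b' : Fin n → Bool) (m : Fin n) (hm : 1 ≤ (m : ℕ)) (hb : b m = true)
    (hb' : b' m = false) (hgt : ∀ j, m < j → b j = b' j) :
    ∃ k : Fin n, cd (T b') (k : ℕ) < cd (T b) (k : ℕ) := by
  classical
  set S : Finset (Fin n) := Finset.univ.filter (fun j => m < j ∧ b j = true) with hS
  have hSle : S.card ≤ n - 1 - (m : ℕ) := by
    have h1 : S ⊆ Finset.Ioi m := by
      intro j hj
      rw [hS, Finset.mem_filter] at hj
      exact Finset.mem_Ioi.2 hj.2.1
    have h2 := Finset.card_le_card h1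
    rw [Fin.card_Ioi] at h2
    exact h2
  have hml := m.isLt
  have hk : (m : ℕ) + S.card - 1 < n := by omega
  refine ⟨⟨(m : ℕ) + S.card - 1, hk⟩, ?_⟩
  have hk1 : (m : ℕ) + S.card - 1 + 1 = (m : ℕ) + S.card := by omega
  unfold cd
  simp only [hk1]
  -- degree of `m` in `T b`
  have hdm : (m : ℕ) + S.card ≤ (nbh (T b) m).card := by
    have h1 : Finset.Iio m ∪ S ⊆ nbh (T b) m := by
      intro w hw
      rw [mem_nbh, T_adj]
      rcases Finset.mem_union.1 hw with h | h
      · exact Or.inr ⟨Finset.mem_Iio.1 h, hb⟩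
      · rw [hS, Finset.mem_filter] at h
        exact Or.inl h.2
    have h2 := Finset.card_le_card h1
    have h3 : Disjoint (Finset.Iio m) S := by
      rw [Finset.disjoint_left]
      intro w hw hw'
      rw [hS, Finset.mem_filter] at hw'
      exact absurd (Finset.mem_Iio.1 hw) (not_lt.2 hw'.2.1.le)
    rw [Finset.card_union_of_disjoint h3, Fin.card_Iio] at h2
    exact h2
  -- degrees of the vertices up to `m` in `T b'`
  have hsmall : ∀ v, v ≤ m → (nbh (T b') v).card < (m : ℕ) + S.card := by
    intro v hv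
    rcases hv.lt_or_eq with hlt | heq
    · have h1 : nbh (T b') v ⊆ (Finset.Iio m).erase v ∪ S := by
        intro w hw
        rw [mem_nbh, T_adj] at hw
        rw [Finset.mem_union, Finset.mem_erase, Finset.mem_Iio, hS, Finset.mem_filter]
        rcases hw with ⟨h, h'⟩ | ⟨h, h'⟩
        · rcases lt_trichotomy w m with h2 | h2 | h2
          · exact Or.inl ⟨h.ne', h2⟩
          · rw [h2, hb'] at h'
            exact absurd h' (by simp)
          · exact Or.inr ⟨Finset.mem_univ _, h2, by rw [hgt w h2]; exact h'⟩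
        · exact Or.inl ⟨h.ne, h.trans hlt⟩
      have h2 := Finset.card_le_card h1
      have h3 := Finset.card_union_le ((Finset.Iio m).erase v) S
      rw [Finset.card_erase_of_mem (Finset.mem_Iio.2 hlt), Fin.card_Iio] at h3
      omega
    · subst heq
      have h1 : nbh (T b') v ⊆ S := by
        intro w hw
        rw [mem_nbh, T_adj] at hw
        rw [hS, Finset.mem_filter]
        rcases hw with ⟨h, h'⟩ | ⟨h, h'⟩
        · exact ⟨Finset.mem_univ _, h, by rw [hgt w h]; exact h'⟩
        · rw [hb'] at h'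
          exact absurd h' (by simp)
      have h2 := Finset.card_le_card h1
      omega
  -- the vertices beyond `m` have the same neighbours
  have hsame : ∀ v, m < v → nbh (T b') v = nbh (T b) v := by
    intro v hv
    ext w
    rw [mem_nbh, mem_nbh, T_adj, T_adj, hgt v hv]
    constructor
    · rintro (⟨h, h'⟩ | h)
      · exact Or.inl ⟨h, by rw [hgt w (hv.trans h)]; exact h'⟩
      · exact Or.inr h
    · rintro (⟨h, h'⟩ | h)
      · exact Or.inl ⟨h, by rw [← hgt w (hv.trans h)]; exact h'⟩
      · exact Or.inr h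
  apply Finset.card_lt_card
  rw [Finset.ssubset_iff_of_subset]
  · refine ⟨m, ?_, ?_⟩
    · simpa using hdm
    · simpa using hsmall m le_rfl
  · intro v hv
    simp only [Finset.mem_filter, Finset.mem_univ, true_and] at hv ⊢
    rcases le_or_gt v m with h | h
    · exact absurd hv (not_le.2 (hsmall v h))
    · rw [← hsame v h]
      exact hv

theorem code_inj {N : ℕ} (c c' : Fin N → Bool)
    (h : ∀ k : Fin (N + 1), cd (T (Fin.cons false c : Fin (N + 1) → Bool)) (k : ℕ) =
      cd (T (Fin.cons false c' : Fin (N + 1) → Bool)) (k : ℕ)) : c = c' := by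
  classical
  by_contra hne
  set b : Fin (N + 1) → Bool := Fin.cons false c with hb
  set b' : Fin (N + 1) → Bool := Fin.cons false c' with hb'
  have hbne : (Finset.univ.filter (fun j => b j ≠ b' j)).Nonempty := by
    rw [Finset.filter_nonempty_iff]
    by_contra hcon
    push Not at hcon
    apply hne
    funext j
    have := hcon j.succ (Finset.mem_univ _)
    simpa [hb, hb'] using this
  obtain ⟨m, hmem, hmax⟩ := Finset.exists_max_image _ (fun j : Fin (N + 1) => j) hbne
  rw [Finset.mem_filter] at hmem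
  have hgt : ∀ j, m < j → b j = b' j := by
    intro j hj
    by_contra hc
    exact absurd (hmax j (Finset.mem_filter.2 ⟨Finset.mem_univ _, hc⟩)) (not_le.2 hj)
  have hm : 1 ≤ (m : ℕ) := by
    rcases Nat.eq_zero_or_pos (m : ℕ) with h0 | h0
    · exfalso
      have : m = 0 := Fin.ext h0
      apply hmem.2
      rw [this, hb, hb', Fin.cons_zero, Fin.cons_zero]
    · exact h0
  cases hbm : b m with
  | true =>
    have hbm' : b' m = false := by
      cases h2 : b' m with
      | true => exact absurd (hbm.trans h2.symm) hmem.2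
      | false => rfl
    obtain ⟨k, hk⟩ := T_lt b b' m hm hbm hbm' hgt
    exact absurd (h k) hk.ne'
  | false =>
    have hbm' : b' m = true := by
      cases h2 : b' m with
      | true => rfl
      | false => exact absurd (hbm.trans h2.symm) hmem.2
    obtain ⟨k, hk⟩ := T_lt b' b m hm hbm' hbm (fun j hj => (hgt j hj).symm)
    exact absurd (h k) hk.ne

theorem T_threshold {n : ℕ} (b : Fin n → Bool) : IsThreshold (T b) := by
  refine ⟨1, fun j => b j = true, ?_⟩
  intro i j hij
  rw [Equiv.Perm.one_apply, Equiv.Perm.one_apply, T_adj]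
  constructor
  · rintro (h | h)
    · exact h.2
    · exact absurd hij (not_lt.2 h.1.le)
  · exact fun h => Or.inl ⟨hij, h⟩

theorem exists_code {N : ℕ} (G : SimpleGraph (Fin (N + 1))) (hG : IsThreshold G) :
    ∃ c : Fin N → Bool, Nonempty (T (Fin.cons false c : Fin (N + 1) → Bool) ≃g G) := by
  classical
  obtain ⟨σ, b, hσ⟩ := hG
  refine ⟨fun j => decide (b j.succ), ⟨⟨σ, ?_⟩⟩⟩
  have key : ∀ j : Fin (N + 1), 0 < j →
      ((Fin.cons false (fun j : Fin N => decide (b j.succ)) : Fin (N + 1) → Bool) j = true ↔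
        b j) := by
    intro j hj
    obtain ⟨i, rfl⟩ := Fin.exists_succ_eq.2 hj.ne'
    rw [Fin.cons_succ, decide_eq_true_iff]
  intro i j
  rw [T_adj]
  rcases lt_trichotomy i j with h | h | h
  · rw [hσ i j h, key j ((Fin.zero_le i).trans_lt h)]
    constructor
    · exact fun h' => Or.inl ⟨h, h'⟩
    · rintro (h' | h')
      · exact h'.2
      · exact absurd h (not_lt.2 h'.1.le)
  · subst h
    simp
  · rw [G.adj_comm, hσ j i h, key i ((Fin.zero_le j).trans_lt h)]
    constructor
    · exact fun h' => Or.inr ⟨h, h'⟩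
    · rintro (h' | h')
      · exact absurd h (not_lt.2 h'.1.le)
      · exact h'.2

/-- two threshold graphs with the same conjugate degree sequence are isomorphic -/
theorem iso_of_cd {N : ℕ} (G H : SimpleGraph (Fin (N + 1))) (hG : IsThreshold G)
    (hH : IsThreshold H) (h : ∀ k : Fin (N + 1), cd G (k : ℕ) = cd H (k : ℕ)) :
    Nonempty (G ≃g H) := by
  obtain ⟨c, ⟨e⟩⟩ := exists_code G hG
  obtain ⟨c', ⟨e'⟩⟩ := exists_code H hH
  have : c = c' := by
    apply code_inj
    intro k
    rw [cd_iso _ _ e, cd_iso _ _ e', h k]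
  subst this
  exact ⟨e.symm.trans e'⟩

theorem ncard_threshold (N : ℕ) :
    {x : Fin (N + 1) → ℝ | ∃ G : SimpleGraph (Fin (N + 1)), IsThreshold G ∧
      x = fun k : Fin (N + 1) => (cd G (k : ℕ) : ℝ)}.ncard = 2 ^ N := by
  have h1 : {x : Fin (N + 1) → ℝ | ∃ G : SimpleGraph (Fin (N + 1)), IsThreshold G ∧
      x = fun k : Fin (N + 1) => (cd G (k : ℕ) : ℝ)} =
      (fun c : Fin N → Bool => fun k : Fin (N + 1) =>
        (cd (T (Fin.cons false c : Fin (N + 1) → Bool)) (k : ℕ) : ℝ)) '' Set.univ := by
    ext x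
    constructor
    · rintro ⟨G, hG, rfl⟩
      obtain ⟨c, ⟨e⟩⟩ := exists_code G hG
      exact ⟨c, Set.mem_univ _, by funext k; simp only [cd_iso _ _ e]⟩
    · rintro ⟨c, -, rfl⟩
      exact ⟨_, T_threshold _, rfl⟩
  rw [h1, Set.ncard_image_of_injective, Set.ncard_univ, Nat.card_eq_fintype_card]
  · simp
  · intro c c' hcc
    apply code_inj
    intro k
    have h2 := congrFun hcc k
    simp only [Nat.cast_inj] at h2
    exact h2

end Pool.Agent.Y786.EP
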