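import Pool.Agent.Helper93.EP.Final

/-!
The polytope of Laplacian spectra by linear inequalities, and weighted graphs (helper786).
-/

set_option autoImplicit false

namespace Pool.Agent.Y786.EP

open scoped BigOperators
open Pool.Agent.Helper93.EP

/-- the sum of the first `i` coordinates -/
noncomputable def psum {n : ℕ} (x : Fin n → ℝ) (i : ℕ) : ℝ :=
  ∑ a : Fin n, if (a : ℕ) < i then x a else 0

/-- The vectors with `x_1 ≥ … ≥ x_n = 0` and
`(x_1 + … + x_i) + (x_1 + … + x_j) ≤ (x_1 + … + x_n) + i (j + 1)` for all `0 ≤ i ≤ j < n`. -/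
def Ineq (n : ℕ) : Set (Fin n → ℝ) :=
  {x | Antitone x ∧ (∀ k : Fin n, (k : ℕ) + 1 = n → x k = 0) ∧
    ∀ i j : ℕ, i ≤ j → j < n → psum x i + psum x j ≤ (∑ a, x a) + (i : ℝ) * ((j : ℝ) + 1)}

theorem maj_gen {N : ℕ} (x : Fin (N + 1) → ℝ) (hx : x ∈ Ineq (N + 1)) (h : Fin N → ℝ)
    (hh : Antitone h) : ∑ a : Fin N, h a * x a.castSucc ≤ Phi h := by
  obtain ⟨-, hlast, hcore⟩ := hx
  have hl : x (Fin.last N) = 0 := hlast _ (by simp)
  refine maj (fun a : Fin N => x a.castSucc) ?_ h hh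
  intro i j hij hj
  have hc := hcore i j hij (by omega)
  have e1 : ∀ i : ℕ, i ≤ N → psum x i =
      ∑ a : Fin N, if (a : ℕ) < i then x a.castSucc else 0 := by
    intro i hi
    rw [psum, Fin.sum_univ_castSucc]
    have : ¬ ((Fin.last N : Fin (N+1)) : ℕ) < i := by simp; omega
    rw [if_neg this, add_zero]
    rfl
  rw [e1 i (by omega), e1 j hj, Fin.sum_univ_castSucc, hl, add_zero] at hc
  exact hc

theorem mem_hull {N : ℕ} (x : Fin (N + 1) → ℝ) (hx : x ∈ Ineq (N + 1)) :
    x ∈ convexHull ℝ (Tset (N + 1)) := by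
  by_contra hcon
  have hl : x (Fin.last N) = 0 := hx.2.1 _ (by simp)
  have hcl : IsClosed (convexHull ℝ (Tset (N + 1))) :=
    ((Tset_finite (N + 1)).isCompact_convexHull ℝ).isClosed
  obtain ⟨f, u, h1, h2⟩ := geometric_hahn_banach_closed_point (convex_convexHull ℝ _) hcl hcon
  set c : Fin N → ℝ := fun a => f (Pi.single a.castSucc 1) with hc
  have hf : ∀ x : Fin (N + 1) → ℝ, x (Fin.last N) = 0 → f x = ∑ a : Fin N, c a * x a.castSucc := by
    intro x hx
    have hx' : x = ∑ k : Fin (N + 1), x k • (Pi.single k (1 : ℝ) : Fin (N + 1) → ℝ) := by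
      funext k
      simp [Finset.sum_apply, Pi.single_apply]
    conv_lhs => rw [hx']
    rw [map_sum, Fin.sum_univ_castSucc, hx, zero_smul, map_zero, add_zero]
    refine Finset.sum_congr rfl fun a _ => ?_
    rw [map_smul, smul_eq_mul, mul_comm]
  obtain ⟨h, hh, hle, heq⟩ := proj c
  obtain ⟨G0, hG0, hl0⟩ := R5.realize h hh
  have hy : Antitone (fun a : Fin N => x a.castSucc) := fun a b hab =>
    hx.1 (Fin.castSucc_le_castSucc_iff.2 hab)
  have k1 := hle _ hy
  have k2 := maj_gen x hx h hh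
  have k3 := h1 (lam G0) (subset_convexHull ℝ _ ⟨G0, hG0, rfl⟩)
  rw [hf x hl] at h2
  rw [hf (lam G0) (lam_last G0), hl0] at k3
  have k4 : ∑ a : Fin N, c a * ext0 (theta h) a.castSucc = ∑ a, c a * theta h a :=
    Finset.sum_congr rfl fun a _ => by rw [ext0_castSucc]
  rw [k4, heq, ← Phi_eq] at k3
  linarith

theorem lam_mem_ineq {n : ℕ} (G : SimpleGraph (Fin n)) : lam G ∈ Ineq n := by
  refine ⟨lam_antitone G, ?_, fun i j hij hj => core G i j hij hj⟩
  intro k hk
  obtain ⟨N, rfl⟩ : ∃ N, n = N + 1 := ⟨k, hk.symm⟩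
  have : k = Fin.last N := by
    ext
    simp only [Fin.val_last]
    omega
  rw [this, lam_last]

theorem psum_add {n : ℕ} (x y : Fin n → ℝ) (a b : ℝ) (i : ℕ) :
    psum (a • x + b • y) i = a * psum x i + b * psum y i := by
  unfold psum
  rw [Finset.mul_sum, Finset.mul_sum, ← Finset.sum_add_distrib]
  refine Finset.sum_congr rfl fun k _ => ?_
  split_ifs <;> simp

theorem convex_ineq (n : ℕ) : Convex ℝ (Ineq n) := by
  rintro x ⟨hx1, hx2, hx3⟩ y ⟨hy1, hy2, hy3⟩ a b ha hb hab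
  refine ⟨?_, ?_, ?_⟩
  · intro k l hkl
    have h1 := mul_le_mul_of_nonneg_left (hx1 hkl) ha
    have h2 := mul_le_mul_of_nonneg_left (hy1 hkl) hb
    simp only [Pi.add_apply, Pi.smul_apply, smul_eq_mul]
    linarith
  · intro k hk
    simp [hx2 k hk, hy2 k hk]
  · intro i j hij hj
    have h1 := mul_le_mul_of_nonneg_left (hx3 i j hij hj) ha
    have h2 := mul_le_mul_of_nonneg_left (hy3 i j hij hj) hb
    have h3 : ∑ k, (a • x + b • y) k = a * ∑ k, x k + b * ∑ k, y k := by
      rw [Finset.mul_sum, Finset.mul_sum, ← Finset.sum_add_distrib]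
      exact Finset.sum_congr rfl fun k _ => by simp
    have h4 : a * ((i : ℝ) * ((j : ℝ) + 1)) + b * ((i : ℝ) * ((j : ℝ) + 1)) =
        (i : ℝ) * ((j : ℝ) + 1) := by rw [← add_mul, hab, one_mul]
    rw [psum_add, psum_add, h3]
    linarith

/-- **The polytope by linear inequalities.** -/
theorem P_eq_ineq (n : ℕ) (hn : 1 ≤ n) : P n = Ineq n := by
  obtain ⟨N, rfl⟩ : ∃ N, n = N + 1 := ⟨n - 1, by omega⟩
  apply Set.Subset.antisymm
  · apply convexHull_min
    · rintro _ ⟨G, rfl⟩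
      exact lam_mem_ineq G
    · exact convex_ineq _
  · intro x hx
    rw [P_eq]
    exact mem_hull x hx

/-- The Laplacian of a weighted graph. -/
def wlap {n : ℕ} (W : Matrix (Fin n) (Fin n) ℝ) : Matrix (Fin n) (Fin n) ℝ :=
  Matrix.diagonal (fun i => ∑ j, W i j) - W

/-- The eigenvalues of a Hermitian matrix, in nonincreasing order. -/
noncomputable def spec {n : ℕ} {L : Matrix (Fin n) (Fin n) ℝ} (hL : L.IsHermitian) : Fin n → ℝ :=
  fun k => hL.eigenvalues₀ (Fin.cast (Fintype.card_fin n).symm k)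

theorem wlap_hermitian {n : ℕ} (W : Matrix (Fin n) (Fin n) ℝ) (hW : W.IsSymm) :
    (wlap W).IsHermitian := by
  rw [Matrix.IsHermitian, Matrix.conjTranspose_eq_transpose_of_trivial, wlap,
    Matrix.transpose_sub, Matrix.diagonal_transpose, hW.eq]

theorem wlap_apply {n : ℕ} (W : Matrix (Fin n) (Fin n) ℝ) (x : Fin n → ℝ) (v : Fin n) :
    (wlap W).mulVec x v = ∑ u, W v u * (x v - x u) := by
  rw [wlap, Matrix.sub_mulVec, Pi.sub_apply, Matrix.mulVec_diagonal, Matrix.mulVec, dotProduct,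
    Finset.sum_mul, ← Finset.sum_sub_distrib]
  exact Finset.sum_congr rfl fun u _ => by ring

theorem wlap_psd {n : ℕ} (W : Matrix (Fin n) (Fin n) ℝ) (hW : W.IsSymm)
    (h0 : ∀ i j, 0 ≤ W i j) : (wlap W).PosSemidef := by
  refine .of_dotProduct_mulVec_nonneg (wlap_hermitian W hW) (fun x => ?_)
  rw [star_trivial]
  have h1 : dotProduct x ((wlap W).mulVec x) = ∑ v, ∑ u, W v u * (x v * (x v - x u)) := by
    rw [dotProduct]
    refine Finset.sum_congr rfl fun v _ => ?_
    rw [wlap_apply, Finset.mul_sum]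
    exact Finset.sum_congr rfl fun u _ => by ring
  have hs : ∀ i j, W i j = W j i := fun i j => by
    conv_lhs => rw [← hW.eq]
    rfl
  have h2 : ∑ v, ∑ u, W v u * (x v * (x v - x u)) = ∑ v, ∑ u, W v u * (x u * (x u - x v)) := by
    rw [Finset.sum_comm]
    exact Finset.sum_congr rfl fun v _ => Finset.sum_congr rfl fun u _ => by rw [hs u v]
  have h3 : 2 * ∑ v, ∑ u, W v u * (x v * (x v - x u)) = ∑ v, ∑ u, W v u * (x v - x u) ^ 2 := by
    rw [two_mul]
    conv_lhs => rw [h2]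
    rw [← h2]
    conv_lhs =>
      congr
      · skip
      · rw [h2]
    rw [← Finset.sum_add_distrib]
    refine Finset.sum_congr rfl fun v _ => ?_
    rw [← Finset.sum_add_distrib]
    exact Finset.sum_congr rfl fun u _ => by ring
  have h4 : 0 ≤ ∑ v, ∑ u, W v u * (x v - x u) ^ 2 :=
    Finset.sum_nonneg fun v _ => Finset.sum_nonneg fun u _ => mul_nonneg (h0 v u) (sq_nonneg _)
  rw [h1]
  linarith

theorem spec_antitone {n : ℕ} {L : Matrix (Fin n) (Fin n) ℝ} (hL : L.IsHermitian) :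
    Antitone (spec hL) := by
  intro a b hab
  unfold spec
  exact Matrix.IsHermitian.eigenvalues₀_antitone _ hab

theorem spec_nonneg {n : ℕ} (W : Matrix (Fin n) (Fin n) ℝ) (hW : W.IsSymm)
    (h0 : ∀ i j, 0 ≤ W i j) (hL : (wlap W).IsHermitian) (a : Fin n) : 0 ≤ spec hL a := by
  have h := (wlap_psd W hW h0).eigenvalues_nonneg
    ((Fintype.equivOfCardEq (Fintype.card_fin _)) (Fin.cast (Fintype.card_fin n).symm a))
  unfold Matrix.IsHermitian.eigenvalues at h
  rw [Equiv.symm_apply_apply] at h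
  exact h

theorem spec_last {N : ℕ} (W : Matrix (Fin (N + 1)) (Fin (N + 1)) ℝ) (hW : W.IsSymm)
    (h0 : ∀ i j, 0 ≤ W i j) (hL : (wlap W).IsHermitian) : spec hL (Fin.last N) = 0 := by
  have hdet : (wlap W).det = 0 := by
    rw [← Matrix.exists_mulVec_eq_zero_iff]
    refine ⟨fun _ => 1, ?_, ?_⟩
    · intro h
      have := congrFun h 0
      simp at this
    · funext v
      rw [wlap_apply]
      simp
  have hprod := hL.det_eq_prod_eigenvalues
  rw [hdet] at hprod
  have hprod' : ∏ i, hL.eigenvalues i = 0 := by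
    have := hprod.symm
    exact_mod_cast this
  obtain ⟨i, -, hi⟩ := Finset.prod_eq_zero_iff.mp hprod'
  have hle : spec hL (Fin.last N) ≤ hL.eigenvalues i := by
    have h2 := spec_antitone hL (Fin.le_last (Fin.cast (Fintype.card_fin (N + 1))
      ((Fintype.equivOfCardEq (Fintype.card_fin _)).symm i)))
    exact h2
  rw [hi] at hle
  exact le_antisymm hle (spec_nonneg W hW h0 hL _)

end Pool.Agent.Y786.EP
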