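import Pool.Agent.Y786.EP.Poly

/-!
Weighted graphs: the spectrum satisfies the linear inequalities (helper786).
-/

set_option autoImplicit false

namespace Pool.Agent.Y786.EP

open scoped BigOperators
open Pool.Agent.Helper93.EP

/-- the reindexing of the eigenvalues -/
noncomputable def ix (n : ℕ) : Fin n ≃ Fin n :=
  (finCongr (Fintype.card_fin n).symm).trans (Fintype.equivOfCardEq (Fintype.card_fin _))

theorem spec_eq {n : ℕ} {L : Matrix (Fin n) (Fin n) ℝ} (hL : L.IsHermitian) (a : Fin n) :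
    spec hL a = hL.eigenvalues (ix n a) := by
  unfold Matrix.IsHermitian.eigenvalues ix spec
  simp

theorem sum_spec {n : ℕ} (W : Matrix (Fin n) (Fin n) ℝ) (hd : ∀ i, W i i = 0)
    (hL : (wlap W).IsHermitian) : ∑ a, spec hL a = ∑ v, ∑ u, W v u := by
  have h1 := hL.trace_eq_sum_eigenvalues
  have h2 : (wlap W).trace = ∑ v, ∑ u, W v u := by
    rw [wlap, Matrix.trace_sub, Matrix.trace_diagonal]
    have : W.trace = 0 := by
      rw [Matrix.trace]
      exact Finset.sum_eq_zero fun i _ => hd i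
    rw [this, sub_zero]
  rw [← h2, h1]
  simp only [spec_eq, RCLike.ofReal_real_eq_id, id_eq]
  exact Equiv.sum_comp (ix n) _

theorem weighted_core {n : ℕ} (W : Matrix (Fin n) (Fin n) ℝ) (hW : W.IsSymm)
    (hd : ∀ i, W i i = 0) (h0 : ∀ i j, 0 ≤ W i j) (h1 : ∀ i j, W i j ≤ 1)
    (hL : (wlap W).IsHermitian) (i j : ℕ) (hij : i ≤ j) (hj : j < n) :
    psum (spec hL) i + psum (spec hL) j ≤ (∑ a, spec hL a) + (i : ℝ) * ((j : ℝ) + 1) := by
  rw [sum_spec W hd hL]
  have hs : ∀ i j, W i j = W j i := fun i j => by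
    conv_lhs => rw [← hW.eq]
    rfl
  refine Pool.Agent.Helper827.Brou.basisForm n (Fintype.card_fin n) (fun v u => W v u) h0 h1 hs hd
    (fun i => ⇑(hL.eigenvectorBasis (ix n i))) ?_ (spec hL) (spec_antitone hL)
    (fun a => spec_nonneg W hW h0 hL a) ?_ (sum_spec W hd hL) i j hij (by omega)
  · have h1 := hL.eigenvectorBasis.toBasis.linearIndependent
    have h2 := h1.comp (ix n) (ix n).injective
    have h3 := h2.map' (WithLp.linearEquiv 2 ℝ (Fin n → ℝ)).toLinearMap
      (LinearMap.ker_eq_bot.mpr (WithLp.linearEquiv 2 ℝ (Fin n → ℝ)).injective)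
    have h4 : (fun i => ⇑(hL.eigenvectorBasis (ix n i))) =
        (⇑(WithLp.linearEquiv 2 ℝ (Fin n → ℝ)).toLinearMap ∘ ⇑hL.eigenvectorBasis.toBasis ∘
          ⇑(ix n)) := by
      ext i v
      simp
    rw [h4]
    exact h3
  · intro i v
    have h1 := hL.mulVec_eigenvectorBasis (ix n i)
    have h2 := congrFun h1 v
    rw [wlap_apply] at h2
    rw [h2, spec_eq]
    simp

/-- the spectrum of a weighted graph is in the polytope -/
theorem spec_mem {n : ℕ} (hn : 1 ≤ n) (W : Matrix (Fin n) (Fin n) ℝ) (hW : W.IsSymm)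
    (hd : ∀ i, W i i = 0) (h0 : ∀ i j, 0 ≤ W i j) (h1 : ∀ i j, W i j ≤ 1)
    (hL : (wlap W).IsHermitian) : spec hL ∈ P n := by
  rw [P_eq_ineq n hn]
  refine ⟨spec_antitone hL, ?_, fun i j hij hj => weighted_core W hW hd h0 h1 hL i j hij hj⟩
  intro k hk
  obtain ⟨N, rfl⟩ : ∃ N, n = N + 1 := ⟨k, hk.symm⟩
  have : k = Fin.last N := by
    ext
    simp only [Fin.val_last]
    omega
  rw [this, spec_last W hW h0 hL]

end Pool.Agent.Y786.EP
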